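import Pool.Agent.helper20.Sz.B1

/-! # Module SZ-GIb: main counting identity, all arcs are loops -/

open scoped symmDiff

namespace Pool.Agent.helper20.Sz
namespace GIb

section counting
variable {X : Type} [DecidableEq X]

open Classical in
theorem cnt_one (S B : Finset X) :
    (((S.powerset.filter fun A => A.Nonempty ∧ B ⊆ A).card : ℕ) : ZMod 2) =
      if S.Nonempty ∧ (B = ∅ ∨ B = S) then 1 else 0 := by
  have key : ∀ B : Finset X, B ⊆ S →
      (((S.powerset.filter fun A => B ⊆ A).card : ℕ) : ZMod 2) = if B = S then 1 else 0 := by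
    intro B hBS
    have h1 : (S.powerset.filter fun A => B ⊆ A) = Finset.Icc B S := by
      ext A; simp only [Finset.mem_filter, Finset.mem_powerset, Finset.mem_Icc]
      exact ⟨fun h => ⟨h.2, h.1⟩, fun h => ⟨h.2, h.1⟩⟩
    rw [h1, Finset.card_Icc_finset hBS]
    split_ifs with h
    · rw [h]; simp
    · have h2 : B.card < S.card := Finset.card_lt_card (hBS.ssubset_of_ne h)
      obtain ⟨k, hk⟩ : ∃ k, S.card - B.card = k + 1 := ⟨S.card - B.card - 1, by omega⟩
      rw [hk, pow_succ]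
      push_cast
      rw [show (2 : ZMod 2) = 0 from rfl, mul_zero]
  by_cases hBS : B ⊆ S
  · by_cases hB : B = ∅
    · subst hB
      have h1 : (S.powerset.filter fun A => A.Nonempty ∧ (∅ : Finset X) ⊆ A) =
          (S.powerset.filter fun A => (∅ : Finset X) ⊆ A).erase ∅ := by
        ext A
        simp only [Finset.mem_filter, Finset.mem_powerset, Finset.mem_erase,
          Finset.nonempty_iff_ne_empty]
        tauto
      rw [h1, Finset.card_erase_of_mem (by simp)]
      have h2 := key ∅ (Finset.empty_subset S)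
      have h3 : 1 ≤ (S.powerset.filter fun A => (∅ : Finset X) ⊆ A).card := by
        apply Finset.card_pos.mpr; exact ⟨∅, by simp⟩
      rw [Nat.cast_sub h3, h2]
      by_cases hS : S = ∅
      · subst hS; simp
      · rw [if_neg (fun h => hS h.symm), if_pos ⟨Finset.nonempty_iff_ne_empty.mpr hS, Or.inl rfl⟩]
        decide
    · have h1 : (S.powerset.filter fun A => A.Nonempty ∧ B ⊆ A) =
          (S.powerset.filter fun A => B ⊆ A) := by
        ext A
        simp only [Finset.mem_filter, Finset.mem_powerset]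
        constructor
        · rintro ⟨h1, h2, h3⟩; exact ⟨h1, h3⟩
        · rintro ⟨h1, h3⟩
          exact ⟨h1, (Finset.nonempty_iff_ne_empty.mpr hB).mono h3, h3⟩
      rw [h1, key B hBS]
      by_cases h : B = S
      · rw [if_pos h, if_pos]
        exact ⟨h ▸ Finset.nonempty_iff_ne_empty.mpr hB, Or.inr h⟩
      · rw [if_neg h, if_neg]
        rintro ⟨_, h1 | h1⟩ <;> contradiction
  · rw [if_neg]
    · rw [Finset.filter_false_of_mem]
      · simp
      · rintro A hA ⟨_, h⟩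
        exact hBS (h.trans (Finset.mem_powerset.mp hA))
    · rintro ⟨_, h1 | h1⟩
      · exact hBS (h1 ▸ Finset.empty_subset S)
      · exact hBS (h1 ▸ subset_rfl)

/-- consequences of conservation -/
theorem cons (M : Finset X) (σ : X → Bool) (δ : X → ℤ) (s : Bool)
    (h : ∑ c ∈ M.filter (fun c => σ c = true), δ c = ∑ c ∈ M.filter (fun c => σ c = false), δ c) :
    ∑ c ∈ M.filter (fun c => σ c = s), δ c = ∑ c ∈ M.filter (fun c => ¬ σ c = s), δ c := by
  cases s
  · rw [← h]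
    congr 1
    ext c; simp
  · rw [h]
    congr 1
    ext c; simp

theorem cons_good (M : Finset X) (σ : X → Bool) (δ : X → ℤ) (s : Bool) (hM : M.Nonempty)
    (h : ∑ c ∈ M.filter (fun c => σ c = true), δ c = ∑ c ∈ M.filter (fun c => σ c = false), δ c)
    (hg : ∀ c ∈ M, δ c < 0) : (M.filter (fun c => σ c = s)).Nonempty := by
  have h1 := cons M σ δ s h
  by_contra hcon
  rw [Finset.not_nonempty_iff_eq_empty] at hcon
  rw [hcon, Finset.sum_empty] at h1
  have h2 : (M.filter (fun c => ¬ σ c = s)) = M := by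
    apply Finset.filter_true_of_mem
    intro c hc hcs
    have : c ∈ M.filter (fun c => σ c = s) := Finset.mem_filter.mpr ⟨hc, hcs⟩
    rw [hcon] at this
    exact absurd this (Finset.notMem_empty c)
  rw [h2] at h1
  have h3 : ∑ c ∈ M, δ c < 0 := Finset.sum_neg (fun c hc => hg c hc) hM
  omega

theorem cons_bad (M : Finset X) (σ : X → Bool) (δ : X → ℤ) (s : Bool)
    (h : ∑ c ∈ M.filter (fun c => σ c = true), δ c = ∑ c ∈ M.filter (fun c => σ c = false), δ c)
    (hb : ∀ c ∈ M, (0 ≤ δ c ↔ σ c = s)) : ∀ c ∈ M, σ c = s := by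
  have h1 := cons M σ δ s h
  intro c hc
  by_contra hcs
  have h2 : ∑ c ∈ M.filter (fun c => ¬ σ c = s), δ c < 0 := by
    apply Finset.sum_neg
    · intro x hx
      rw [Finset.mem_filter] at hx
      have := (hb x hx.1).not.mpr hx.2
      omega
    · exact ⟨c, Finset.mem_filter.mpr ⟨hc, hcs⟩⟩
  have h3 : 0 ≤ ∑ c ∈ M.filter (fun c => σ c = s), δ c := by
    apply Finset.sum_nonneg
    intro x hx
    rw [Finset.mem_filter] at hx
    exact (hb x hx.1).mpr hx.2
  omega

theorem cons_zero (M : Finset X) (σ : X → Bool) (δ : X → ℤ) (s : Bool)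
    (h : ∑ c ∈ M.filter (fun c => σ c = true), δ c = ∑ c ∈ M.filter (fun c => σ c = false), δ c)
    (hb : ∀ c ∈ M, 0 ≤ δ c) (hs : ∀ c ∈ M, σ c = s) : ∀ c ∈ M, δ c = 0 := by
  have h1 := cons M σ δ s h
  rw [Finset.filter_true_of_mem hs, Finset.filter_false_of_mem (by simpa using hs),
    Finset.sum_empty] at h1
  exact (Finset.sum_eq_zero_iff_of_nonneg hb).mp h1

open Classical in
theorem cnt_two (M B : Finset X) (σ : X → Bool) (δ : X → ℤ) (s : Bool) (hM : M.Nonempty)
    (h : ∑ c ∈ M.filter (fun c => σ c = true), δ c = ∑ c ∈ M.filter (fun c => σ c = false), δ c)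
    (hB : ∀ c ∈ M, (c ∈ B ↔ 0 ≤ δ c)) :
    ((((M.filter fun c => σ c = s).powerset.filter fun A => A.Nonempty ∧ B ∩ M ⊆ A).card : ℕ) :
      ZMod 2) = if Disjoint B M ∨ (M ⊆ B ∧ ∀ c ∈ M, σ c = s) then 1 else 0 := by
  rw [cnt_one]
  congr 1
  apply propext
  constructor
  · rintro ⟨h1, h2 | h2⟩
    · exact Or.inl (Finset.disjoint_iff_inter_eq_empty.mpr h2)
    · right
      have h3 : ∀ c ∈ M, σ c = s := by
        apply cons_bad M σ δ s h
        intro c hc
        rw [← hB c hc]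
        constructor
        · intro hcB
          have : c ∈ B ∩ M := Finset.mem_inter.mpr ⟨hcB, hc⟩
          rw [h2] at this
          exact (Finset.mem_filter.mp this).2
        · intro hcs
          have : c ∈ M.filter fun c => σ c = s := Finset.mem_filter.mpr ⟨hc, hcs⟩
          rw [← h2] at this
          exact (Finset.mem_inter.mp this).1
      refine ⟨?_, h3⟩
      intro c hc
      have : c ∈ M.filter fun c => σ c = s := Finset.mem_filter.mpr ⟨hc, h3 c hc⟩
      rw [← h2] at this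
      exact (Finset.mem_inter.mp this).1
  · rintro (h1 | ⟨h1, h2⟩)
    · refine ⟨cons_good M σ δ s hM h ?_, Or.inl (Finset.disjoint_iff_inter_eq_empty.mp h1)⟩
      intro c hc
      have := (hB c hc).not.mp (fun hcB => Finset.disjoint_left.mp h1 hcB hc)
      omega
    · rw [Finset.filter_true_of_mem h2]
      exact ⟨hM, Or.inr (Finset.inter_eq_right.mpr h1)⟩

open Classical in
theorem cnt_prod (G L R B : Finset X) (hL : L ⊆ G) (hR : R ⊆ G) (hd : Disjoint L R)
    (hB : B ⊆ L ∪ R) (σ : X → Bool) (s : Bool) :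
    (G.powerset.filter fun A => B ⊆ A ∧ A ⊆ L ∪ R ∧ (A ∩ L).Nonempty ∧ (A ∩ R).Nonempty ∧
      ∀ c ∈ A, σ c = s).card =
    ((L.filter fun c => σ c = s).powerset.filter fun A => A.Nonempty ∧ B ∩ L ⊆ A).card *
    ((R.filter fun c => σ c = s).powerset.filter fun A => A.Nonempty ∧ B ∩ R ⊆ A).card := by
  rw [← Finset.card_product]
  apply Finset.card_bij' (fun A _ => (A ∩ L, A ∩ R)) (fun p _ => p.1 ∪ p.2)
  · intro A hA
    simp only [Finset.mem_filter, Finset.mem_powerset, Finset.mem_product] at hA ⊢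
    obtain ⟨-, hBA, hAs, h1, h2, h3⟩ := hA
    refine ⟨⟨?_, h1, Finset.inter_subset_inter_right hBA⟩, ⟨?_, h2,
      Finset.inter_subset_inter_right hBA⟩⟩
    · intro x hx
      rw [Finset.mem_inter] at hx
      exact Finset.mem_filter.mpr ⟨hx.2, h3 x hx.1⟩
    · intro x hx
      rw [Finset.mem_inter] at hx
      exact Finset.mem_filter.mpr ⟨hx.2, h3 x hx.1⟩
  · rintro ⟨A1, A2⟩ hp
    simp only [Finset.mem_filter, Finset.mem_powerset, Finset.mem_product] at hp ⊢
    obtain ⟨⟨h1, h2, h3⟩, ⟨h4, h5, h6⟩⟩ := hp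
    have hA1 : A1 ⊆ L := fun x hx => (Finset.mem_filter.mp (h1 hx)).1
    have hA2 : A2 ⊆ R := fun x hx => (Finset.mem_filter.mp (h4 hx)).1
    refine ⟨Finset.union_subset (hA1.trans hL) (hA2.trans hR), ?_,
      Finset.union_subset_union hA1 hA2, ?_, ?_, ?_⟩
    · intro x hx
      rcases Finset.mem_union.mp (hB hx) with hxL | hxR
      · exact Finset.mem_union_left _ (h3 (Finset.mem_inter.mpr ⟨hx, hxL⟩))
      · exact Finset.mem_union_right _ (h6 (Finset.mem_inter.mpr ⟨hx, hxR⟩))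
    · obtain ⟨x, hx⟩ := h2
      exact ⟨x, Finset.mem_inter.mpr ⟨Finset.mem_union_left _ hx, hA1 hx⟩⟩
    · obtain ⟨x, hx⟩ := h5
      exact ⟨x, Finset.mem_inter.mpr ⟨Finset.mem_union_right _ hx, hA2 hx⟩⟩
    · intro c hc
      rcases Finset.mem_union.mp hc with hc | hc
      · exact (Finset.mem_filter.mp (h1 hc)).2
      · exact (Finset.mem_filter.mp (h4 hc)).2
  · intro A hA
    simp only [Finset.mem_filter, Finset.mem_powerset] at hA
    rw [← Finset.inter_union_distrib_left]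
    exact Finset.inter_eq_left.mpr hA.2.2.1
  · rintro ⟨A1, A2⟩ hp
    simp only [Finset.mem_filter, Finset.mem_powerset, Finset.mem_product] at hp
    obtain ⟨⟨h1, h2, h3⟩, ⟨h4, h5, h6⟩⟩ := hp
    have hA1 : A1 ⊆ L := fun x hx => (Finset.mem_filter.mp (h1 hx)).1
    have hA2 : A2 ⊆ R := fun x hx => (Finset.mem_filter.mp (h4 hx)).1
    have e1 : A2 ∩ L = ∅ := by
      ext x; simp only [Finset.mem_inter, Finset.notMem_empty, iff_false, not_and]
      intro hx hxL; exact Finset.disjoint_left.mp hd hxL (hA2 hx)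
    have e2 : A1 ∩ R = ∅ := by
      ext x; simp only [Finset.mem_inter, Finset.notMem_empty, iff_false, not_and]
      intro hx hxR; exact Finset.disjoint_left.mp hd (hA1 hx) hxR
    simp only [Prod.mk.injEq]
    constructor
    · rw [Finset.union_inter_distrib_right, e1, Finset.union_empty]
      exact Finset.inter_eq_left.mpr hA1
    · rw [Finset.union_inter_distrib_right, e2, Finset.empty_union]
      exact Finset.inter_eq_left.mpr hA2

theorem prop_id {a1 a2 a3 a4 a5 a6 a7 a8 : Prop} (x1 : ¬ (a1 ∧ a3)) (x2 : ¬ (a2 ∧ a4))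
    (x3 : ¬ (a5 ∧ a6)) (x4 : ¬ (a7 ∧ a8)) {P1 P2 P3 P4 Q : Prop} [Decidable P1] [Decidable P2]
    [Decidable P3] [Decidable P4] [Decidable Q] (h1 : P1 ↔ a1 ∨ (a3 ∧ a5))
    (h2 : P2 ↔ a2 ∨ (a4 ∧ a7)) (h3 : P3 ↔ a1 ∨ (a3 ∧ a6)) (h4 : P4 ↔ a2 ∨ (a4 ∧ a8))
    (hQ : Q ↔ ((a3 ∧ a4 ∧ ((a5 ∧ a7) ∨ (a6 ∧ a8))) ∨ (a3 ∧ a2 ∧ (a6 ∨ a5)) ∨
      (a4 ∧ a1 ∧ (a8 ∨ a7)))) :
    ((if P1 then (1 : ZMod 2) else 0) * (if P2 then 1 else 0) +
      (if P3 then 1 else 0) * (if P4 then 1 else 0)) = if Q then 1 else 0 := by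
  have two : (1 : ZMod 2) + 1 = 0 := rfl
  by_cases a1 <;> by_cases a2 <;> by_cases a3 <;> by_cases a4 <;> by_cases a5 <;>
    by_cases a6 <;> by_cases a7 <;> by_cases a8 <;> simp_all

open Classical in
theorem count (G L R B : Finset X) (hL : L ⊆ G) (hR : R ⊆ G) (hd : Disjoint L R)
    (hLn : L.Nonempty) (hRn : R.Nonempty) (σ : X → Bool) (δ : X → ℤ)
    (hB : ∀ c ∈ G, (c ∈ B ↔ 0 ≤ δ c))
    (hcL : ∑ c ∈ L.filter (fun c => σ c = true), δ c = ∑ c ∈ L.filter (fun c => σ c = false), δ c)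
    (hcR : ∑ c ∈ R.filter (fun c => σ c = true), δ c = ∑ c ∈ R.filter (fun c => σ c = false), δ c) :
    (((G.powerset.filter fun A => B ⊆ A ∧ A ⊆ L ∪ R ∧ (A ∩ L).Nonempty ∧ (A ∩ R).Nonempty ∧
      ∃ s, ∀ c ∈ A, σ c = s).card : ℕ) : ZMod 2) =
    if B ⊆ L ∪ R ∧ ((L ⊆ B ∧ R ⊆ B ∧ ∃ s, ∀ c ∈ L ∪ R, σ c = s) ∨
      (L ⊆ B ∧ Disjoint B R ∧ ∃ s, ∀ c ∈ L, σ c = s) ∨
      (R ⊆ B ∧ Disjoint B L ∧ ∃ s, ∀ c ∈ R, σ c = s)) then 1 else 0 := by
  by_cases hBs : B ⊆ L ∪ R
  · have hsplit : (G.powerset.filter fun A => B ⊆ A ∧ A ⊆ L ∪ R ∧ (A ∩ L).Nonempty ∧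
        (A ∩ R).Nonempty ∧ ∃ s, ∀ c ∈ A, σ c = s) =
        (G.powerset.filter fun A => B ⊆ A ∧ A ⊆ L ∪ R ∧ (A ∩ L).Nonempty ∧ (A ∩ R).Nonempty ∧
          ∀ c ∈ A, σ c = true) ∪
        (G.powerset.filter fun A => B ⊆ A ∧ A ⊆ L ∪ R ∧ (A ∩ L).Nonempty ∧ (A ∩ R).Nonempty ∧
          ∀ c ∈ A, σ c = false) := by
      ext A
      simp only [Finset.mem_filter, Finset.mem_union, Bool.exists_bool]
      tauto
    have hdis : Disjoint
        (G.powerset.filter fun A => B ⊆ A ∧ A ⊆ L ∪ R ∧ (A ∩ L).Nonempty ∧ (A ∩ R).Nonempty ∧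
          ∀ c ∈ A, σ c = true)
        (G.powerset.filter fun A => B ⊆ A ∧ A ⊆ L ∪ R ∧ (A ∩ L).Nonempty ∧ (A ∩ R).Nonempty ∧
          ∀ c ∈ A, σ c = false) := by
      rw [Finset.disjoint_left]
      intro A hA hA'
      simp only [Finset.mem_filter] at hA hA'
      obtain ⟨-, -, -, ⟨x, hx⟩, -, h1⟩ := hA
      have h2 := hA'.2.2.2.2.2 x (Finset.mem_inter.mp hx).1
      have h3 := h1 x (Finset.mem_inter.mp hx).1
      rw [h2] at h3
      simp at h3
    rw [hsplit, Finset.card_union_of_disjoint hdis, cnt_prod G L R B hL hR hd hBs,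
      cnt_prod G L R B hL hR hd hBs]
    push_cast
    rw [cnt_two L B σ δ true hLn hcL (fun c hc => hB c (hL hc)),
      cnt_two R B σ δ true hRn hcR (fun c hc => hB c (hR hc)),
      cnt_two L B σ δ false hLn hcL (fun c hc => hB c (hL hc)),
      cnt_two R B σ δ false hRn hcR (fun c hc => hB c (hR hc))]
    have x1 : ¬ (Disjoint B L ∧ L ⊆ B) := by
      rintro ⟨h1, h2⟩
      obtain ⟨x, hx⟩ := hLn
      exact Finset.disjoint_left.mp h1 (h2 hx) hx
    have x2 : ¬ (Disjoint B R ∧ R ⊆ B) := by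
      rintro ⟨h1, h2⟩
      obtain ⟨x, hx⟩ := hRn
      exact Finset.disjoint_left.mp h1 (h2 hx) hx
    have x3 : ¬ ((∀ c ∈ L, σ c = true) ∧ (∀ c ∈ L, σ c = false)) := by
      rintro ⟨h1, h2⟩
      obtain ⟨x, hx⟩ := hLn
      have := h1 x hx
      rw [h2 x hx] at this
      simp at this
    have x4 : ¬ ((∀ c ∈ R, σ c = true) ∧ (∀ c ∈ R, σ c = false)) := by
      rintro ⟨h1, h2⟩
      obtain ⟨x, hx⟩ := hRn
      have := h1 x hx
      rw [h2 x hx] at this
      simp at this
    have x5 : (∃ s, ∀ c ∈ L ∪ R, σ c = s) ↔ ((∀ c ∈ L, σ c = true) ∧ (∀ c ∈ R, σ c = true)) ∨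
        ((∀ c ∈ L, σ c = false) ∧ (∀ c ∈ R, σ c = false)) := by
      simp only [Finset.mem_union, Bool.exists_bool, or_imp, forall_and]
      tauto
    have x6 : (B ⊆ L ∪ R ∧ ((L ⊆ B ∧ R ⊆ B ∧ ∃ s, ∀ c ∈ L ∪ R, σ c = s) ∨
      (L ⊆ B ∧ Disjoint B R ∧ ∃ s, ∀ c ∈ L, σ c = s) ∨
      (R ⊆ B ∧ Disjoint B L ∧ ∃ s, ∀ c ∈ R, σ c = s))) ↔
      (L ⊆ B ∧ R ⊆ B ∧ (((∀ c ∈ L, σ c = true) ∧ (∀ c ∈ R, σ c = true)) ∨
        ((∀ c ∈ L, σ c = false) ∧ (∀ c ∈ R, σ c = false)))) ∨
      (L ⊆ B ∧ Disjoint B R ∧ ((∀ c ∈ L, σ c = false) ∨ (∀ c ∈ L, σ c = true))) ∨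
      (R ⊆ B ∧ Disjoint B L ∧ ((∀ c ∈ R, σ c = false) ∨ (∀ c ∈ R, σ c = true))) := by
      rw [and_iff_right hBs, x5]
      simp only [Bool.exists_bool]
    exact prop_id x1 x2 x3 x4 Iff.rfl Iff.rfl Iff.rfl Iff.rfl x6
  · rw [if_neg (fun h => hBs h.1), Finset.filter_false_of_mem]
    · rw [Finset.card_empty, Nat.cast_zero]
    · rintro A hA ⟨h1, h2, -⟩
      exact hBs (h1.trans h2)

end counting

variable {X E : Type} [DecidableEq X] [Finite E] {K : Cube X E} {eta : X → Bool}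

omit [Finite E] in
theorem sd_union (v : Finset X) {A B : Finset X} (h : Disjoint A B) :
    v ∆ (A ∪ B) = (v ∆ A) ∆ B := by
  rw [symmDiff_assoc, Disjoint.symmDiff_eq_sup h]; rfl

omit [Finite E] in
theorem sd_sub (v : Finset X) {H G : Finset X} (h : H ⊆ G) : v ∆ G = (v ∆ H) ∆ (G \ H) := by
  rw [← sd_union v Finset.disjoint_sdiff, Finset.union_sdiff_of_subset h]

omit [Finite E] in
theorem sd_comm (v A B : Finset X) : (v ∆ A) ∆ B = (v ∆ B) ∆ A := by
  rw [symmDiff_assoc, symmDiff_assoc, symmDiff_comm A B]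

omit [Finite E] in
theorem sd_self (v A : Finset X) : (v ∆ A) ∆ A = v := by
  rw [symmDiff_assoc, symmDiff_self]; simp

omit [Finite E] in
theorem sd_insert (v : Finset X) {S : Finset X} {x : X} (h : x ∉ S) :
    v ∆ (insert x S) = (v ∆ S) ∆ {x} := by
  rw [Finset.insert_eq, Finset.union_comm]
  exact sd_union v (Finset.disjoint_singleton_right.mpr h)

/-- `c` and `c'` are interleaved (for loops `c`, `c'`) -/
def Int (K : Cube X E) (v : Finset X) (c c' : X) : Prop := c ≠ c' ∧ ¬ K.Loop (v ∆ {c}) c'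

theorem num_int (hK : K.IsCore) {v : Finset X} {c c' : X} (hc : K.Loop v c)
    (h : Int K v c c') : K.num ((v ∆ {c}) ∆ {c'}) = K.num v := by
  have h1 := B1.num_flip_loop hK hc
  have h2 := B1.num_flip_nonloop hK h.2
  omega

theorem int_symm (hK : K.IsCore) {v : Finset X} {c c' : X} (hc : K.Loop v c) (hc' : K.Loop v c')
    (h : Int K v c c') : Int K v c' c := by
  refine ⟨h.1.symm, fun hl => ?_⟩
  have h1 := num_int hK hc h
  have h2 := B1.num_flip_loop hK hc'
  have h3 := B1.num_flip_loop hK hl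
  rw [sd_comm] at h3
  omega

omit [Finite E] in
/-- an arc `c'` which interleaves `c` joins the two pieces -/
theorem joins (hK : K.IsCore) {v : Finset X} {c c' : X} (hc : K.Loop v c) (hc' : K.Loop v c')
    (h : ¬ K.Loop (v ∆ {c}) c') :
    (K.same (v ∆ {c}) (K.tail c') (K.tail c) ∧ K.same (v ∆ {c}) (K.head c') (K.head c)) ∨
    (K.same (v ∆ {c}) (K.tail c') (K.head c) ∧ K.same (v ∆ {c}) (K.head c') (K.tail c)) := by
  have h1 := hK.merge (v ∆ {c}) c (hK.split v c hc) (K.tail c') (K.head c')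
  rw [sd_self] at h1
  have e := hK.eqv (v ∆ {c})
  rcases h1.mp hc' with h2 | ⟨h2, h3⟩ | ⟨h2, h3⟩
  · exact absurd h2 h
  · exact Or.inl ⟨h2, e.symm h3⟩
  · exact Or.inr ⟨h2, e.symm h3⟩

omit [Finite E] in
/-- two arcs which are not loops: the second becomes a loop iff they join the same circles -/
theorem loop_iff_join (hK : K.IsCore) {u : Finset X} {c c' : X} (hc : ¬ K.Loop u c)
    (hc' : ¬ K.Loop u c') (h : K.Loop (u ∆ {c}) c') :
    (K.same u (K.tail c') (K.tail c) ∧ K.same u (K.head c') (K.head c)) ∨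
    (K.same u (K.tail c') (K.head c) ∧ K.same u (K.head c') (K.tail c)) := by
  have e := hK.eqv u
  rcases (hK.merge u c hc (K.tail c') (K.head c')).mp h with h2 | ⟨h2, h3⟩ | ⟨h2, h3⟩
  · exact absurd h2 hc'
  · exact Or.inl ⟨h2, e.symm h3⟩
  · exact Or.inr ⟨h2, e.symm h3⟩

/-- the standing assumptions -/
structure Setup (K : Cube X E) (eta : X → Bool) (v G : Finset X) : Prop where
  sys : K.IsSys eta
  hom : Hom v G
  num : K.num (v ∆ G) + 2 = K.num v + G.card
  all : ∀ c ∈ G, K.Loop v c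

section
variable {v G : Finset X}

theorem Setup.core (S : Setup K eta v G) : K.IsCore := S.sys.toIsCore

theorem Setup.int_symm (S : Setup K eta v G) {c c' : X} (hc : c ∈ G) (hc' : c' ∈ G)
    (h : Int K v c c') : Int K v c' c :=
  GIb.int_symm S.core (S.all c hc) (S.all c' hc') h

omit [Finite E] in
theorem Setup.int_eta (S : Setup K eta v G) {c c' : X} (hc : c ∈ G) (hc' : c' ∈ G)
    (h : Int K v c c') : eta c ≠ eta c' :=
  S.sys.side1 v c c' h.1 (S.hom c hc c' hc') (S.all c hc) (S.all c' hc') h.2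

theorem Setup.num_sub (S : Setup K eta v G) {H : Finset X} (h : H ⊆ G) :
    K.num v + H.card ≤ K.num (v ∆ H) + 2 := by
  have h1 := B1.num_le S.core (v ∆ H) (G \ H)
  rw [← sd_sub v h] at h1
  have h2 := Finset.card_sdiff_add_card_eq_card h
  have h3 := S.num
  omega

/-- a pairwise non-interleaved set splits -/
theorem Setup.spl (S : Setup K eta v G) {H : Finset X} (h : H ⊆ G)
    (hp : ∀ c ∈ H, ∀ c' ∈ H, ¬ Int K v c c') : K.Spl v H := by
  apply B1.spl_of_pairwise S.core (fun c hc => S.all c (h hc))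
  intro c hc c' hc' hne
  by_contra hcon
  exact hp c hc c' hc' ⟨hne, hcon⟩

/-- if `insert x S` splits then `x` is a loop after surgery along `S` -/
theorem spl_insert_loop (hK : K.IsCore) {v S : Finset X} {x : X} (hx : x ∉ S)
    (h : K.Spl v (insert x S)) : K.Loop (v ∆ S) x := by
  have h1 := ((B1.spl_iff hK (Finset.subset_insert x S)).mp h).2
  have h2 : (insert x S) \ S = {x} := by
    ext y; simp only [Finset.mem_sdiff, Finset.mem_insert, Finset.mem_singleton]
    constructor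
    · rintro ⟨h | h, h'⟩
      · exact h
      · exact absurd h h'
    · rintro rfl; exact ⟨Or.inl rfl, hx⟩
  rw [h2] at h1
  by_contra hcon
  have h3 := B1.num_flip_nonloop hK hcon
  unfold Cube.Spl at h1
  simp only [Finset.card_singleton] at h1
  omega

/-- no interleaved pair in a splitting set -/
theorem Setup.not_int_of_spl (S : Setup K eta v G) {H : Finset X} (_hH : H ⊆ G) (h : K.Spl v H)
    {c c' : X} (hc : c ∈ H) (hc' : c' ∈ H) : ¬ Int K v c c' := by
  intro hi
  have h1 : ({c', c} : Finset X) ⊆ H := by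
    intro x hx
    simp only [Finset.mem_insert, Finset.mem_singleton] at hx
    rcases hx with rfl | rfl <;> assumption
  have h2 := ((B1.spl_iff S.core h1).mp h).1
  have h3 := spl_insert_loop S.core (by simpa using hi.1.symm) h2
  exact hi.2 h3

open Classical in
/-- the arcs on the side `b` which are interleaved with some arc -/
noncomputable def Mb (K : Cube X E) (eta : X → Bool) (v G : Finset X) (b : Bool) : Finset X :=
  G.filter fun c => eta c = b ∧ ∃ c' ∈ G, Int K v c c'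

omit [Finite E] in
theorem mem_Mb {b : Bool} {c : X} : c ∈ Mb K eta v G b ↔
    c ∈ G ∧ eta c = b ∧ ∃ c' ∈ G, Int K v c c' := by
  classical
  unfold Mb
  rw [Finset.mem_filter]

omit [Finite E] in
theorem Mb_sub (b : Bool) : Mb K eta v G b ⊆ G := fun _ h => (mem_Mb.mp h).1

/-- all arcs of the side `b` are interleaved with all arcs of the side `!b` -/
theorem Setup.int_all (S : Setup K eta v G) {b : Bool} {l r : X} (hl : l ∈ Mb K eta v G b)
    (hr : r ∈ Mb K eta v G (!b)) : Int K v l r := by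
  obtain ⟨hlG, hle, r', hr'G, hlr'⟩ := mem_Mb.mp hl
  obtain ⟨hrG, hre, l', hl'G, hrl'⟩ := mem_Mb.mp hr
  by_contra hcon
  have hC := S.core
  have hne : l ≠ r := by
    rintro rfl
    rw [hle] at hre
    cases b <;> simp at hre
  have hlr : K.Loop (v ∆ {l}) r := by
    by_contra h
    exact hcon ⟨hne, h⟩
  have hr'e : eta r' = !b := by
    have := S.int_eta hlG hr'G hlr'
    rw [hle] at this
    cases b <;> cases h : eta r' <;> simp_all
  have hl'e : eta l' = b := by
    have := S.int_eta hrG hl'G hrl'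
    rw [hre] at this
    cases b <;> cases h : eta l' <;> simp_all
  have h1 : r' ≠ r := by
    rintro rfl; exact hcon hlr'
  have h2 : l' ≠ l := by
    rintro rfl; exact hcon (S.int_symm hrG hl'G hrl')
  have h3 : r' ≠ l' := by
    rintro rfl; rw [hr'e] at hl'e; cases b <;> simp at hl'e
  have h4 : r' ≠ l := hlr'.1.symm
  have h5 : l' ≠ r := hrl'.1.symm
  -- the state `u`
  have hspl : K.Spl v {r, l} := by
    apply S.spl
    · intro x hx
      simp only [Finset.mem_insert, Finset.mem_singleton] at hx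
      rcases hx with rfl | rfl <;> assumption
    · intro c hc c' hc' hi
      simp only [Finset.mem_insert, Finset.mem_singleton] at hc hc'
      rcases hc with rfl | rfl <;> rcases hc' with rfl | rfl
      · exact hi.1 rfl
      · exact hcon (S.int_symm hrG hlG hi)
      · exact hcon hi
      · exact hi.1 rfl
  have hu1 : ∀ x y, K.same (v ∆ {r, l}) x y → K.same (v ∆ {l}) x y := by
    have := B1.spl_iff hC (v := v) (H := {l}) (G := {r, l}) (by intro x; simp; tauto)
    have h6 := B1.spl_finer hC (this.mp hspl).2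
    rw [← sd_sub v (by intro x; simp; tauto)] at h6
    exact h6
  have hu2 : ∀ x y, K.same (v ∆ {r, l}) x y → K.same (v ∆ {r}) x y := by
    have := B1.spl_iff hC (v := v) (H := {r}) (G := {r, l}) (by intro x; simp; tauto)
    have h6 := B1.spl_finer hC (this.mp hspl).2
    rw [← sd_sub v (by intro x; simp; tauto)] at h6
    exact h6
  set u := v ∆ {r, l} with hu
  have hr'n : ¬ K.Loop u r' := fun h => hlr'.2 (hu1 _ _ h)
  have hl'n : ¬ K.Loop u l' := fun h => hrl'.2 (hu2 _ _ h)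
  have hnum : K.num u = K.num v + 2 := by
    have := hspl
    unfold Cube.Spl at this
    rw [Finset.card_pair hne.symm] at this
    exact this
  have hmem : ∀ x ∈ G, x ≠ r → x ≠ l → (x ∈ u ↔ x ∈ v) := by
    intro x _ hxr hxl
    rw [hu, Finset.mem_symmDiff]
    simp [hxr, hxl]
  have hnl : ¬ K.Loop (u ∆ {r'}) l' := by
    intro h
    have h7 := loop_iff_join hC hr'n hl'n h
    have h8 : eta r' = eta l' := by
      apply S.sys.side2 u r' l' _ hr'n
      · have e := hC.eqv u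
        rcases h7 with ⟨a, b⟩ | ⟨a, b⟩
        · exact Or.inl ⟨e.symm a, e.symm b⟩
        · exact Or.inr ⟨e.symm b, e.symm a⟩
      · rw [hmem r' hr'G h1 h4, hmem l' hl'G h5 h2]
        exact S.hom r' hr'G l' hl'G
    rw [hr'e, hl'e] at h8
    cases b <;> simp at h8
  have h9 := B1.num_flip_nonloop hC hr'n
  have h10 := B1.num_flip_nonloop hC hnl
  -- count
  have hsub : ({l', r', r, l} : Finset X) ⊆ G := by
    intro x hx
    simp only [Finset.mem_insert, Finset.mem_singleton] at hx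
    rcases hx with rfl | rfl | rfl | rfl <;> assumption
  have hcard : ({l', r', r, l} : Finset X).card = 4 := by
    rw [Finset.card_insert_of_notMem, Finset.card_insert_of_notMem, Finset.card_pair hne.symm]
    · simp only [Finset.mem_insert, Finset.mem_singleton, not_or]; exact ⟨h1, h4⟩
    · simp only [Finset.mem_insert, Finset.mem_singleton, not_or]; exact ⟨h3.symm, h5, h2⟩
  have h11 := S.num_sub hsub
  rw [hcard, sd_insert v (by
    simp only [Finset.mem_insert, Finset.mem_singleton, not_or]; exact ⟨h3.symm, h5, h2⟩),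
    sd_insert v (by
    simp only [Finset.mem_insert, Finset.mem_singleton, not_or]; exact ⟨h1, h4⟩), ← hu] at h11
  omega

theorem finer_sub (hK : K.IsCore) {v H H' : Finset X} (h : H' ⊆ H) (hs : K.Spl v H) :
    ∀ x y, K.same (v ∆ H) x y → K.same (v ∆ H') x y := by
  have := B1.spl_finer hK ((B1.spl_iff hK h).mp hs).2
  rwa [← sd_sub v h] at this

/-- two arcs outside of a splitting set which are not loops join the same circles -/
theorem Setup.join_of_spl (S : Setup K eta v G) {H : Finset X} (hH : H ⊆ G) (hs : K.Spl v H)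
    {c c' : X} (hc : c ∈ G) (hc' : c' ∈ G) (hcH : c ∉ H) (hcH' : c' ∉ H)
    (hn : ¬ K.Loop (v ∆ H) c) (hn' : ¬ K.Loop (v ∆ H) c') :
    (K.same (v ∆ H) (K.tail c') (K.tail c) ∧ K.same (v ∆ H) (K.head c') (K.head c)) ∨
    (K.same (v ∆ H) (K.tail c') (K.head c) ∧ K.same (v ∆ H) (K.head c') (K.tail c)) := by
  have hK := S.core
  by_cases hcc : c = c'
  · subst hcc
    exact Or.inl ⟨(hK.eqv _).refl _, (hK.eqv _).refl _⟩
  · apply loop_iff_join hK hn hn'
    by_contra hcon
    have h1 := B1.num_flip_nonloop hK hn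
    have h2 := B1.num_flip_nonloop hK hcon
    have hnot : c' ∉ insert c H := by
      rw [Finset.mem_insert, not_or]; exact ⟨fun h => hcc h.symm, hcH'⟩
    have h3 := S.num_sub (H := insert c' (insert c H)) (by
      intro x hx
      simp only [Finset.mem_insert] at hx
      rcases hx with rfl | rfl | hx
      · exact hc'
      · exact hc
      · exact hH hx)
    rw [Finset.card_insert_of_notMem hnot, Finset.card_insert_of_notMem hcH, sd_insert v hnot,
      sd_insert v hcH] at h3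
    have h4 := hs
    unfold Cube.Spl at h4
    omega

theorem Setup.mem_Mb_of_int (_S : Setup K eta v G) {c c' : X} (hc : c ∈ G) (hc' : c' ∈ G)
    (h : Int K v c c') : c ∈ Mb K eta v G (eta c) :=
  mem_Mb.mpr ⟨hc, rfl, c', hc', h⟩

theorem Setup.not_int_same (S : Setup K eta v G) {b : Bool} {c c' : X}
    (hc : c ∈ Mb K eta v G b) (hc' : c' ∈ Mb K eta v G b) : ¬ Int K v c c' := by
  intro h
  apply S.int_eta (Mb_sub b hc) (Mb_sub b hc') h
  rw [(mem_Mb.mp hc).2.1, (mem_Mb.mp hc').2.1]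

theorem Mb_ne {b : Bool} {c c' : X} (hc : c ∈ Mb K eta v G b) (hc' : c' ∈ Mb K eta v G (!b)) :
    c ≠ c' := by
  rintro rfl
  have h1 := (mem_Mb.mp hc).2.1
  have h2 := (mem_Mb.mp hc').2.1
  rw [h1] at h2
  cases b <;> simp at h2

/-- `x` is on the side `b` -/
theorem Setup.nonloop (S : Setup K eta v G) {b : Bool} {l r : X} (hl : l ∈ Mb K eta v G b)
    (hr : r ∈ Mb K eta v G (!b)) : ¬ K.Loop (v ∆ {r}) l :=
  (S.int_symm (Mb_sub _ hl) (Mb_sub _ hr) (S.int_all hl hr)).2

theorem Setup.dir_indep (S : Setup K eta v G) {b : Bool} {l l' r r' : X}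
    (hl : l ∈ Mb K eta v G b) (hl' : l' ∈ Mb K eta v G b) (hr : r ∈ Mb K eta v G (!b))
    (hr' : r' ∈ Mb K eta v G (!b)) (h : K.same (v ∆ {r}) (K.tail l) (K.tail l')) :
    K.same (v ∆ {r'}) (K.tail l) (K.tail l') := by
  have hK := S.core
  have hsub : ({r, r'} : Finset X) ⊆ G := by
    intro x hx
    simp only [Finset.mem_insert, Finset.mem_singleton] at hx
    rcases hx with rfl | rfl
    · exact Mb_sub _ hr
    · exact Mb_sub _ hr'
  have hs : K.Spl v {r, r'} := by
    apply S.spl hsub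
    intro c hc c' hc'
    simp only [Finset.mem_insert, Finset.mem_singleton] at hc hc'
    apply S.not_int_same (b := !b)
    · rcases hc with rfl | rfl <;> assumption
    · rcases hc' with rfl | rfl <;> assumption
  have f1 := finer_sub hK (H' := {r}) (H := {r, r'}) (by intro x; simp; tauto) hs
  have f2 := finer_sub hK (H' := {r'}) (H := {r, r'}) (by intro x; simp; tauto) hs
  have hlH : l ∉ ({r, r'} : Finset X) := by
    simp only [Finset.mem_insert, Finset.mem_singleton, not_or]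
    exact ⟨Mb_ne hl hr, Mb_ne hl hr'⟩
  have hlH' : l' ∉ ({r, r'} : Finset X) := by
    simp only [Finset.mem_insert, Finset.mem_singleton, not_or]
    exact ⟨Mb_ne hl' hr, Mb_ne hl' hr'⟩
  have n1 : ¬ K.Loop (v ∆ {r, r'}) l := fun h => S.nonloop hl hr (f1 _ _ h)
  have n2 : ¬ K.Loop (v ∆ {r, r'}) l' := fun h => S.nonloop hl' hr (f1 _ _ h)
  rcases S.join_of_spl hsub hs (Mb_sub _ hl) (Mb_sub _ hl') hlH hlH' n1 n2 with ⟨h1, -⟩ | ⟨h1, -⟩
  · exact (hK.eqv _).symm (f2 _ _ h1)
  · exact absurd ((hK.eqv _).trans h (f1 _ _ h1)) (S.nonloop hl hr)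

omit [Finite E] in
theorem crs_iff {s0 : Bool} {u : Finset X} {e f : X} (he : K.Loop u e) (hf : K.Loop u f)
    (hi : ¬ K.Loop (u ∆ {f}) e) :
    K.Crs s0 u e f ↔ (K.same (u ∆ {f}) (K.tail e) (K.tail f) ↔ s0 = true) :=
  ⟨fun h => h.2.2.2, fun h => ⟨he, hf, hi, h⟩⟩

omit [Finite E] in
theorem dir_tail (hK : K.IsCore) {u : Finset X} {l l' r : X} (hl : K.Loop u l)
    (hl' : K.Loop u l') (hr : K.Loop u r) (n : ¬ K.Loop (u ∆ {r}) l)
    (n' : ¬ K.Loop (u ∆ {r}) l') :
    K.same (u ∆ {r}) (K.tail l) (K.tail l') ↔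
      (K.same (u ∆ {r}) (K.tail l) (K.tail r) ↔ K.same (u ∆ {r}) (K.tail l') (K.tail r)) := by
  have e := hK.eqv (u ∆ {r})
  have hs : ¬ K.same (u ∆ {r}) (K.tail r) (K.head r) := hK.split u r hr
  have hno : ∀ x, K.same (u ∆ {r}) x (K.tail r) → K.same (u ∆ {r}) x (K.head r) → False :=
    fun x h1 h2 => hs (e.trans (e.symm h1) h2)
  constructor
  · intro h
    exact ⟨fun h1 => e.trans (e.symm h) h1, fun h1 => e.trans h h1⟩
  · intro h
    rcases joins hK hr hl n with ⟨h1, -⟩ | ⟨h1, -⟩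
    · exact e.trans h1 (e.symm (h.mp h1))
    · rcases joins hK hr hl' n' with ⟨h2, -⟩ | ⟨h2, -⟩
      · exact (hno _ (h.mpr h2) h1).elim
      · exact e.trans h1 (e.symm h2)

omit [Finite E] in
theorem dir_crs (hK : K.IsCore) {s0 : Bool} {u : Finset X} {l l' r : X} (hl : K.Loop u l)
    (hl' : K.Loop u l') (hr : K.Loop u r) (n : ¬ K.Loop (u ∆ {r}) l)
    (n' : ¬ K.Loop (u ∆ {r}) l') :
    K.same (u ∆ {r}) (K.tail l) (K.tail l') ↔ (K.Crs s0 u l r ↔ K.Crs s0 u l' r) := by
  rw [dir_tail hK hl hl' hr n n', crs_iff hl hr n, crs_iff hl' hr n']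
  tauto

/-- the sign function -/
structure Sig (K : Cube X E) (eta : X → Bool) (s0 : Bool) (v G : Finset X) (σ : X → Bool) :
    Prop where
  crs : ∀ b, ∀ c ∈ Mb K eta v G b, ∀ d ∈ Mb K eta v G (!b), (K.Crs s0 v c d ↔ σ c = σ d)
  dir : ∀ b, ∀ c ∈ Mb K eta v G b, ∀ c' ∈ Mb K eta v G b, ∀ d ∈ Mb K eta v G (!b),
    (σ c = σ c' ↔ K.same (v ∆ {d}) (K.tail c) (K.tail c'))

theorem Setup.exists_sig (S : Setup K eta v G) {s0 : Bool} (hC : K.CrsP s0) {l0 r0 : X}
    (hl0 : l0 ∈ Mb K eta v G true) (hr0 : r0 ∈ Mb K eta v G false) :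
    ∃ σ, Sig K eta s0 v G σ := by
  classical
  have hK := S.core
  have hG : ∀ {b c}, c ∈ Mb K eta v G b → K.Loop v c := fun h => S.all _ (Mb_sub _ h)
  have key : ∀ b, ∀ c ∈ Mb K eta v G b, ∀ c' ∈ Mb K eta v G b, ∀ d ∈ Mb K eta v G (!b),
      (K.same (v ∆ {d}) (K.tail c) (K.tail c') ↔ (K.Crs s0 v c d ↔ K.Crs s0 v c' d)) := by
    intro b c hc c' hc' d hd
    exact dir_crs hK (hG hc) (hG hc') (hG hd) (S.nonloop hc hd) (S.nonloop hc' hd)
  have indep : ∀ b, ∀ c ∈ Mb K eta v G b, ∀ c' ∈ Mb K eta v G b, ∀ d ∈ Mb K eta v G (!b),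
      ∀ d' ∈ Mb K eta v G (!b), (K.same (v ∆ {d}) (K.tail c) (K.tail c') ↔
        K.same (v ∆ {d'}) (K.tail c) (K.tail c')) := by
    intro b c hc c' hc' d hd d' hd'
    exact ⟨S.dir_indep hc hc' hd hd', S.dir_indep hc hc' hd' hd⟩
  have symm : ∀ c ∈ G, ∀ d ∈ G, (K.Crs s0 v c d ↔ K.Crs s0 v d c) := by
    intro c hc d hd
    exact ⟨hC v c d (S.hom c hc d hd), hC v d c (S.hom d hd c hc)⟩
  refine ⟨fun c => if eta c = true then decide (K.Crs s0 v c r0) else
    decide (K.Crs s0 v l0 c ↔ K.Crs s0 v l0 r0), ?_, ?_⟩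
  · have hmain : ∀ l ∈ Mb K eta v G true, ∀ r ∈ Mb K eta v G false,
        (K.Crs s0 v l r ↔ (K.Crs s0 v l r0 ↔ (K.Crs s0 v l0 r ↔ K.Crs s0 v l0 r0))) := by
      intro l hl r hr
      have h1 := indep true l hl l0 hl0 r hr r0 hr0
      rw [key true l hl l0 hl0 r hr, key true l hl l0 hl0 r0 hr0] at h1
      tauto
    intro b c hc d hd
    have e1 := (mem_Mb.mp hc).2.1
    have e2 := (mem_Mb.mp hd).2.1
    cases b
    · simp only [e1, e2, Bool.not_false, if_true, Bool.false_eq_true, if_false, decide_eq_decide]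
      rw [symm c (Mb_sub _ hc) d (Mb_sub _ hd), hmain d hd c hc]
      tauto
    · simp only [e1, e2, Bool.not_true, if_true, Bool.false_eq_true, if_false, decide_eq_decide]
      exact hmain c hc d hd
  · intro b c hc c' hc' d hd
    have e1 := (mem_Mb.mp hc).2.1
    have e2 := (mem_Mb.mp hc').2.1
    cases b
    · simp only [e1, e2, Bool.false_eq_true, if_false, decide_eq_decide]
      rw [indep false c hc c' hc' d hd l0 hl0, key false c hc c' hc' l0 hl0,
        symm c (Mb_sub _ hc) l0 (Mb_sub _ hl0), symm c' (Mb_sub _ hc') l0 (Mb_sub _ hl0)]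
      tauto
    · simp only [e1, e2, if_true, decide_eq_decide]
      rw [indep true c hc c' hc' d hd r0 hr0, key true c hc c' hc' r0 hr0]

/-- the difference along an arc -/
def dl (K : Cube X E) (f : E → ℕ) (c : X) : ℤ := (f (K.head c) : ℤ) - f (K.tail c)

theorem Setup.cons (S : Setup K eta v G) {s0 : Bool} {σ : X → Bool} (hσ : Sig K eta s0 v G σ)
    {f : E → ℕ} (hf : ∀ x y, K.same (v ∆ G) x y → f x = f y) {b : Bool} {d : X}
    (hd : d ∈ Mb K eta v G (!b)) (hne : (Mb K eta v G b).Nonempty) :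
    ∑ c ∈ (Mb K eta v G b).filter (fun c => σ c = true), dl K f c =
    ∑ c ∈ (Mb K eta v G b).filter (fun c => σ c = false), dl K f c := by
  classical
  have hK := S.core
  have hdG := Mb_sub _ hd
  have e := hK.eqv (v ∆ {d})
  have hsplit : ¬ K.same (v ∆ {d}) (K.tail d) (K.head d) := hK.split v d (S.all d hdG)
  have hno : ∀ x, K.same (v ∆ {d}) x (K.tail d) → K.same (v ∆ {d}) x (K.head d) → False :=
    fun x h1 h2 => hsplit (e.trans (e.symm h1) h2)
  have hf' : ∀ x y, K.same ((v ∆ {d}) ∆ (G.erase d)) x y → (f x : ℤ) = f y := by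
    intro x y h
    rw [Finset.erase_eq, ← sd_sub v (Finset.singleton_subset_iff.mpr hdG)] at h
    exact_mod_cast hf x y h
  have ht := S.sys.tele (v ∆ {d}) (G.erase d) (fun x => (f x : ℤ)) hf' (K.tail d)
  -- only the arcs of `Mb b` contribute
  have hsub : Mb K eta v G b ⊆ G.erase d := by
    intro c hc
    exact Finset.mem_erase.mpr ⟨Mb_ne hc hd, Mb_sub _ hc⟩
  rw [← Finset.sum_subset hsub] at ht
  swap
  · intro c hc hcM
    rw [Finset.mem_erase] at hc
    have hl : K.Loop (v ∆ {d}) c := by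
      by_contra hcon
      apply hcM
      have hi : Int K v d c := ⟨fun h => hc.1 h.symm, hcon⟩
      have h1 := S.int_eta hdG hc.2 hi
      rw [(mem_Mb.mp hd).2.1] at h1
      refine mem_Mb.mpr ⟨hc.2, ?_, d, hdG, S.int_symm hdG hc.2 hi⟩
      cases b <;> cases h : eta c <;> simp_all
    have h2 : K.same (v ∆ {d}) (K.tail c) (K.tail d) ↔ K.same (v ∆ {d}) (K.head c) (K.tail d) :=
      ⟨fun h => e.trans (e.symm hl) h, fun h => e.trans hl h⟩
    simp only [h2, sub_self, mul_zero]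
  have hterm : ∀ c ∈ Mb K eta v G b, (if eta c then (1 : ℤ) else -1) *
      ((f (K.head c) : ℤ) - f (K.tail c)) *
      ((if K.same (v ∆ {d}) (K.tail c) (K.tail d) then 1 else 0) -
        (if K.same (v ∆ {d}) (K.head c) (K.tail d) then 1 else 0)) =
      (if b then (1 : ℤ) else -1) * ((if K.same (v ∆ {d}) (K.tail c) (K.tail d) then dl K f c
        else 0) - (if ¬ K.same (v ∆ {d}) (K.tail c) (K.tail d) then dl K f c else 0)) := by
    intro c hc
    rw [(mem_Mb.mp hc).2.1]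
    unfold dl
    rcases joins hK (S.all d hdG) (S.all c (Mb_sub _ hc)) (S.nonloop hc hd) with ⟨h1, h2⟩ | ⟨h1, h2⟩
    · rw [if_pos h1, if_neg (fun h => hno _ h h2), if_pos h1, if_neg (not_not.mpr h1)]
      ring
    · rw [if_neg (fun h => hno _ h h1), if_pos h2, if_neg (fun h => hno _ h h1),
        if_pos (fun h => hno _ h h1)]
      ring
  rw [Finset.sum_congr rfl hterm, ← Finset.mul_sum, Finset.sum_sub_distrib,
    ← Finset.sum_filter, ← Finset.sum_filter] at ht
  have hP : ∑ c ∈ (Mb K eta v G b).filter (fun c => K.same (v ∆ {d}) (K.tail c) (K.tail d)),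
        dl K f c =
      ∑ c ∈ (Mb K eta v G b).filter (fun c => ¬ K.same (v ∆ {d}) (K.tail c) (K.tail d)),
        dl K f c := by
    have : (if b then (1 : ℤ) else -1) ≠ 0 := by cases b <;> simp
    have h3 := (mul_eq_zero.mp ht).resolve_left this
    omega
  -- compare with the sign
  obtain ⟨c1, hc1⟩ := hne
  have hrel : ∀ c ∈ Mb K eta v G b, (σ c = σ c1 ↔
      (K.same (v ∆ {d}) (K.tail c) (K.tail d) ↔ K.same (v ∆ {d}) (K.tail c1) (K.tail d))) := by
    intro c hc
    rw [hσ.dir b c hc c1 hc1 d hd]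
    exact dir_tail hK (S.all c (Mb_sub _ hc)) (S.all c1 (Mb_sub _ hc1)) (S.all d hdG)
      (S.nonloop hc hd) (S.nonloop hc1 hd)
  by_cases h1 : (σ c1 = true ↔ K.same (v ∆ {d}) (K.tail c1) (K.tail d))
  · have e1 : (Mb K eta v G b).filter (fun c => σ c = true) =
        (Mb K eta v G b).filter (fun c => K.same (v ∆ {d}) (K.tail c) (K.tail d)) := by
      apply Finset.filter_congr
      intro c hc
      have := hrel c hc
      cases h2 : σ c <;> cases h3 : σ c1 <;> simp_all
    have e2 : (Mb K eta v G b).filter (fun c => σ c = false) =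
        (Mb K eta v G b).filter (fun c => ¬ K.same (v ∆ {d}) (K.tail c) (K.tail d)) := by
      apply Finset.filter_congr
      intro c hc
      have := hrel c hc
      cases h2 : σ c <;> cases h3 : σ c1 <;> simp_all
    rw [e1, e2, hP]
  · have e1 : (Mb K eta v G b).filter (fun c => σ c = false) =
        (Mb K eta v G b).filter (fun c => K.same (v ∆ {d}) (K.tail c) (K.tail d)) := by
      apply Finset.filter_congr
      intro c hc
      have := hrel c hc
      cases h2 : σ c <;> cases h3 : σ c1 <;> simp_all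
    have e2 : (Mb K eta v G b).filter (fun c => σ c = true) =
        (Mb K eta v G b).filter (fun c => ¬ K.same (v ∆ {d}) (K.tail c) (K.tail d)) := by
      apply Finset.filter_congr
      intro c hc
      have := hrel c hc
      cases h2 : σ c <;> cases h3 : σ c1 <;> simp_all
    rw [e1, e2, hP]

theorem mem_LR (S : Setup K eta v G) {c c' : X} (hc : c ∈ G) (hc' : c' ∈ G)
    (h : Int K v c c') : c ∈ Mb K eta v G true ∪ Mb K eta v G false := by
  rw [Finset.mem_union]
  have := S.mem_Mb_of_int hc hc' h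
  cases hb : eta c
  · rw [hb] at this; exact Or.inr this
  · rw [hb] at this; exact Or.inl this

/-- the pairs of arcs of a `Bun` at a state `u` in which the arcs interleave as at `v` -/
theorem bun_struct (S : Setup K eta v G) {s0 : Bool} {σ : X → Bool} (hσ : Sig K eta s0 v G σ)
    {P Q : Finset X} (hP : P ⊆ G) (hQ : Q ⊆ G) (hPn : P.Nonempty) (hQn : Q.Nonempty)
    (h : ∀ e ∈ P, ∀ f ∈ Q, Int K v f e ∧ K.Crs s0 v e f) :
    P ∪ Q ⊆ Mb K eta v G true ∪ Mb K eta v G false ∧
    ((P ∪ Q) ∩ Mb K eta v G true).Nonempty ∧ ((P ∪ Q) ∩ Mb K eta v G false).Nonempty ∧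
    ∃ s, ∀ c ∈ P ∪ Q, σ c = s := by
  have hmem : ∀ e ∈ P, ∀ f ∈ Q, e ∈ Mb K eta v G (eta e) ∧ f ∈ Mb K eta v G (!(eta e)) := by
    intro e he f hf
    have h1 := (h e he f hf).1
    have h2 := S.mem_Mb_of_int (hQ hf) (hP he) h1
    have h3 := S.mem_Mb_of_int (hP he) (hQ hf) (S.int_symm (hQ hf) (hP he) h1)
    have h4 := S.int_eta (hQ hf) (hP he) h1
    refine ⟨h3, ?_⟩
    have : eta f = !(eta e) := by
      cases h5 : eta e <;> cases h6 : eta f <;> simp_all
    rw [← this]; exact h2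
  have hsig : ∀ e ∈ P, ∀ f ∈ Q, σ e = σ f := by
    intro e he f hf
    obtain ⟨h1, h2⟩ := hmem e he f hf
    exact (hσ.crs _ e h1 f h2).mp (h e he f hf).2
  obtain ⟨e0, he0⟩ := hPn
  obtain ⟨f0, hf0⟩ := hQn
  refine ⟨?_, ?_, ?_, σ f0, ?_⟩
  · intro x hx
    rcases Finset.mem_union.mp hx with hx | hx
    · exact mem_LR S (hP hx) (hQ hf0) (S.int_symm (hQ hf0) (hP hx) (h x hx f0 hf0).1)
    · exact mem_LR S (hQ hx) (hP he0) (h e0 he0 x hx).1
  · obtain ⟨h1, h2⟩ := hmem e0 he0 f0 hf0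
    cases hb : eta e0
    · rw [hb] at h2
      exact ⟨f0, Finset.mem_inter.mpr ⟨Finset.mem_union_right _ hf0, by simpa using h2⟩⟩
    · rw [hb] at h1
      exact ⟨e0, Finset.mem_inter.mpr ⟨Finset.mem_union_left _ he0, h1⟩⟩
  · obtain ⟨h1, h2⟩ := hmem e0 he0 f0 hf0
    cases hb : eta e0
    · rw [hb] at h1
      exact ⟨e0, Finset.mem_inter.mpr ⟨Finset.mem_union_left _ he0, h1⟩⟩
    · rw [hb] at h2
      exact ⟨f0, Finset.mem_inter.mpr ⟨Finset.mem_union_right _ hf0, by simpa using h2⟩⟩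
  · intro c hc
    rcases Finset.mem_union.mp hc with hc | hc
    · exact hsig c hc f0 hf0
    · rw [← hsig e0 he0 c hc, hsig e0 he0 f0 hf0]

theorem Setup.ac_iff (S : Setup K eta v G) {s0 : Bool} {σ : X → Bool} (hσ : Sig K eta s0 v G σ)
    {A : Finset X} (hA : A ⊆ G) : K.AC s0 v A ↔
      A ⊆ Mb K eta v G true ∪ Mb K eta v G false ∧ (A ∩ Mb K eta v G true).Nonempty ∧
      (A ∩ Mb K eta v G false).Nonempty ∧ ∃ s, ∀ c ∈ A, σ c = s := by
  have hK := S.core
  have e := hK.eqv v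
  constructor
  · rintro (⟨⟨g, hg⟩, a, b, hab, h⟩ | ⟨P, Q, rfl, hd, hPn, hQn, h⟩)
    · exact absurd (e.trans (e.trans (e.symm (h g hg).1) (S.all g (hA hg))) (h g hg).2) hab
    · apply bun_struct S hσ (fun x hx => hA (Finset.mem_union_left _ hx))
        (fun x hx => hA (Finset.mem_union_right _ hx)) hPn hQn
      intro x hx y hy
      refine ⟨⟨?_, (h x hx y hy).2.2.1⟩, h x hx y hy⟩
      rintro rfl
      exact Finset.disjoint_left.mp hd hx hy
  · rintro ⟨h1, h2, h3, s, h4⟩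
    right
    refine ⟨A ∩ Mb K eta v G true, A ∩ Mb K eta v G false, ?_, ?_, h2, h3, ?_⟩
    · rw [← Finset.inter_union_distrib_left]
      exact Finset.inter_eq_left.mpr h1
    · rw [Finset.disjoint_left]
      intro x hx hx'
      exact Mb_ne (b := true) (Finset.mem_inter.mp hx).2 (Finset.mem_inter.mp hx').2 rfl
    · intro x hx y hy
      rw [Finset.mem_inter] at hx hy
      rw [hσ.crs true x hx.2 y hy.2, h4 x hx.1, h4 y hy.1]

/-- an arc which is not interleaved with the splitting set `H` is a loop after surgery along `H` -/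
theorem Setup.spl_insert (S : Setup K eta v G) {H : Finset X} (hH : H ⊆ G) (hs : K.Spl v H)
    {x : X} (hx : x ∈ G) (hi : ∀ y ∈ H, ¬ Int K v x y) : K.Spl v (insert x H) := by
  apply S.spl
  · intro y hy
    rcases Finset.mem_insert.mp hy with rfl | hy
    · exact hx
    · exact hH hy
  · intro c hc c' hc' hcc
    rcases Finset.mem_insert.mp hc with h1 | h1
    · rcases Finset.mem_insert.mp hc' with h2 | h2
      · exact hcc.1 (h1.trans h2.symm)
      · exact hi c' h2 (h1 ▸ hcc)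
    · rcases Finset.mem_insert.mp hc' with h2 | h2
      · subst h2
        exact hi c h1 (S.int_symm (hH h1) hx hcc)
      · exact S.not_int_of_spl hH hs h1 h2 hcc

theorem Setup.loop_at (S : Setup K eta v G) {H : Finset X} (hH : H ⊆ G) (hs : K.Spl v H)
    {x : X} (hx : x ∈ G) (hxH : x ∉ H) (hi : ∀ y ∈ H, ¬ Int K v x y) : K.Loop (v ∆ H) x :=
  spl_insert_loop S.core hxH (S.spl_insert hH hs hx hi)

theorem Setup.nonloop_at (S : Setup K eta v G) {H : Finset X} (hs : K.Spl v H)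
    {d x : X} (hd : d ∈ H) (hi : Int K v d x) : ¬ K.Loop (v ∆ H) x := fun h =>
  hi.2 (finer_sub S.core (Finset.singleton_subset_iff.mpr hd) hs _ _ h)

/-- interleaving at `v ∆ H` implies interleaving at `v` -/
theorem Setup.int_of_at (S : Setup K eta v G) {H : Finset X} (hH : H ⊆ G) (hs : K.Spl v H)
    {x y : X} (hx : x ∈ G) (hxH : x ∉ H) (hy : y ∈ G) (hyH : y ∉ H) (hxy : x ≠ y)
    (hix : ∀ z ∈ H, ¬ Int K v x z) (hiy : ∀ z ∈ H, ¬ Int K v y z)
    (h : ¬ K.Loop ((v ∆ H) ∆ {x}) y) : Int K v x y := by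
  by_contra hcon
  apply h
  have h1 := S.spl_insert hH hs hx hix
  have h2 : insert x H ⊆ G := by
    intro z hz
    rcases Finset.mem_insert.mp hz with rfl | hz
    · exact hx
    · exact hH hz
  have h3 : y ∉ insert x H := by
    rw [Finset.mem_insert, not_or]; exact ⟨hxy.symm, hyH⟩
  have h4 := S.loop_at h2 h1 hy h3 (by
    intro z hz hyz
    rcases Finset.mem_insert.mp hz with rfl | hz
    · exact hcon (S.int_symm hy hx hyz)
    · exact hiy z hz hyz)
  rwa [sd_insert v hxH] at h4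

/-- the chirality of an interleaved pair does not change -/
theorem Setup.crs_at (S : Setup K eta v G) {s0 : Bool} {H : Finset X} (hH : H ⊆ G)
    (hs : K.Spl v H) {x y : X} (hx : x ∈ G) (hxH : x ∉ H) (hy : y ∈ G) (hyH : y ∉ H)
    (hix : ∀ z ∈ H, ¬ Int K v x z) (hiy : ∀ z ∈ H, ¬ Int K v y z) (hi : Int K v x y) :
    K.Crs s0 (v ∆ H) y x ↔ K.Crs s0 v y x := by
  have hK := S.core
  have h1 := S.spl_insert hH hs hx hix
  have hf := finer_sub hK (H' := {x}) (H := insert x H) (by intro z; simp; tauto) h1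
  rw [sd_insert v hxH] at hf
  have lx := S.loop_at hH hs hx hxH hix
  have ly := S.loop_at hH hs hy hyH hiy
  have n1 : ¬ K.Loop ((v ∆ H) ∆ {x}) y := fun h => hi.2 (hf _ _ h)
  rw [crs_iff ly lx n1, crs_iff (S.all y hy) (S.all x hx) hi.2]
  have : K.same ((v ∆ H) ∆ {x}) (K.tail y) (K.tail x) ↔ K.same (v ∆ {x}) (K.tail y) (K.tail x) := by
    constructor
    · exact hf _ _
    · intro h
      rcases joins hK lx ly n1 with ⟨h2, -⟩ | ⟨h2, -⟩
      · exact h2
      · exfalso
        have e := hK.eqv (v ∆ {x})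
        exact hK.split v x (S.all x hx) (e.trans (e.symm h) (hf _ _ h2))
  rw [this]

theorem Setup.not_int_T (_S : Setup K eta v G) {x y : X} (hx : x ∈ G) (hy : y ∈ G)
    (h1 : x ∉ Mb K eta v G true) (h2 : x ∉ Mb K eta v G false) : ¬ Int K v x y := by
  intro h
  cases hb : eta x
  · exact h2 (mem_Mb.mpr ⟨hx, hb, y, hy, h⟩)
  · exact h1 (mem_Mb.mpr ⟨hx, hb, y, hy, h⟩)

theorem notMem_both {x : X} {b : Bool} (h1 : x ∉ Mb K eta v G b) (h2 : x ∉ Mb K eta v G (!b)) :
    x ∉ Mb K eta v G true ∧ x ∉ Mb K eta v G false := by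
  cases b
  · exact ⟨h2, h1⟩
  · exact ⟨h1, h2⟩

/-- forward direction, some arc of `H` is on the side `!b` and interleaved -/
theorem Setup.caseA (S : Setup K eta v G) {s0 : Bool} {σ : X → Bool} (hσ : Sig K eta s0 v G σ)
    {B : Finset X} (hB : B ⊆ G) (hs : K.Spl v (G \ B)) (hA : K.AC s0 (v ∆ (G \ B)) B) {b : Bool}
    {d : X} (hd : d ∈ Mb K eta v G (!b)) (hdB : d ∉ B) (hne : (Mb K eta v G b).Nonempty) :
    B = Mb K eta v G b ∧ ∃ s, ∀ c ∈ Mb K eta v G b, σ c = s := by
  have hK := S.core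
  have e := hK.eqv (v ∆ (G \ B))
  have hdH : d ∈ G \ B := Finset.mem_sdiff.mpr ⟨Mb_sub _ hd, hdB⟩
  have hint : ∀ l ∈ Mb K eta v G b, Int K v d l := fun l hl =>
    S.int_symm (Mb_sub _ hl) (Mb_sub _ hd) (S.int_all hl hd)
  have hLB : Mb K eta v G b ⊆ B := by
    intro l hl
    by_contra hlB
    exact S.not_int_of_spl Finset.sdiff_subset hs hdH
      (Finset.mem_sdiff.mpr ⟨Mb_sub _ hl, hlB⟩) (hint l hl)
  have hnl : ∀ l ∈ Mb K eta v G b, ¬ K.Loop (v ∆ (G \ B)) l := fun l hl =>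
    S.nonloop_at hs hdH (hint l hl)
  obtain ⟨l0, hl0⟩ := hne
  rcases hA with ⟨-, a, a', haa, h⟩ | ⟨P, Q, hPQ, -, ⟨p0, hp0⟩, ⟨q0, hq0⟩, h⟩
  · have hBL : B ⊆ Mb K eta v G b := by
      intro c hc
      by_contra hcL
      have hloop : K.Loop (v ∆ (G \ B)) c := by
        apply S.loop_at Finset.sdiff_subset hs (hB hc)
        · simp [hc]
        · intro y hy
          rw [Finset.mem_sdiff] at hy
          by_cases hcR : c ∈ Mb K eta v G (!b)
          · by_cases hyR : y ∈ Mb K eta v G (!b)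
            · exact S.not_int_same hcR hyR
            · intro hcy
              have hyL : y ∉ Mb K eta v G b := fun h => hy.2 (hLB h)
              obtain ⟨h1, h2⟩ := notMem_both hyL hyR
              exact S.not_int_T hy.1 (hB hc) h1 h2 (S.int_symm (hB hc) hy.1 hcy)
          · obtain ⟨h1, h2⟩ := notMem_both hcL hcR
            exact S.not_int_T (hB hc) hy.1 h1 h2
      exact haa (e.trans (e.trans (e.symm (h c hc).1) hloop) (h c hc).2)
    refine ⟨hBL.antisymm hLB, σ l0, ?_⟩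
    intro c hc
    rw [hσ.dir b c hc l0 hl0 d hd]
    apply finer_sub hK (Finset.singleton_subset_iff.mpr hdH) hs
    exact e.trans (h c (hLB hc)).1 (e.symm (h l0 (hLB hl0)).1)
  · exfalso
    have := hLB hl0
    rw [← hPQ] at this
    rcases Finset.mem_union.mp this with h1 | h1
    · exact hnl l0 hl0 (h l0 h1 q0 hq0).1
    · exact hnl l0 hl0 (h p0 hp0 l0 h1).2.1

/-- backward direction, `B` is one of the two bunches -/
theorem Setup.caseA' (S : Setup K eta v G) {s0 : Bool} {σ : X → Bool} (hσ : Sig K eta s0 v G σ)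
    {b : Bool} {d : X} (hd : d ∈ Mb K eta v G (!b)) (hne : (Mb K eta v G b).Nonempty) {s : Bool}
    (hsig : ∀ c ∈ Mb K eta v G b, σ c = s) : K.Spl v (G \ Mb K eta v G b) ∧
      K.AC s0 (v ∆ (G \ Mb K eta v G b)) (Mb K eta v G b) := by
  have hK := S.core
  have e := hK.eqv (v ∆ (G \ Mb K eta v G b))
  have hs : K.Spl v (G \ Mb K eta v G b) := by
    apply S.spl Finset.sdiff_subset
    intro x hx y hy hxy
    rw [Finset.mem_sdiff] at hx hy
    have h1 := S.mem_Mb_of_int hx.1 hy.1 hxy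
    have h2 := S.mem_Mb_of_int hy.1 hx.1 (S.int_symm hx.1 hy.1 hxy)
    have h3 := S.int_eta hx.1 hy.1 hxy
    by_cases h4 : eta x = b
    · rw [h4] at h1; exact hx.2 h1
    · have h5 : eta y = b := by
        cases b <;> cases h6 : eta x <;> cases h7 : eta y <;> simp_all
      rw [h5] at h2; exact hy.2 h2
  have hdH : d ∈ G \ Mb K eta v G b :=
    Finset.mem_sdiff.mpr ⟨Mb_sub _ hd, fun h => Mb_ne h hd rfl⟩
  have hnl : ∀ l ∈ Mb K eta v G b, ¬ K.Loop (v ∆ (G \ Mb K eta v G b)) l := fun l hl =>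
    S.nonloop_at hs hdH (S.int_symm (Mb_sub _ hl) (Mb_sub _ hd) (S.int_all hl hd))
  obtain ⟨l0, hl0⟩ := hne
  refine ⟨hs, Or.inl ⟨⟨l0, hl0⟩, K.tail l0, K.head l0, hnl l0 hl0, ?_⟩⟩
  intro g hg
  rcases S.join_of_spl Finset.sdiff_subset hs (Mb_sub _ hl0) (Mb_sub _ hg)
    (by simp [hl0]) (by simp [hg]) (hnl l0 hl0) (hnl g hg) with h | ⟨h, -⟩
  · exact h
  · exfalso
    have h1 := finer_sub hK (Finset.singleton_subset_iff.mpr hdH) hs _ _ h
    have h2 := (hσ.dir b g hg l0 hl0 d hd).mp (by rw [hsig g hg, hsig l0 hl0])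
    exact S.nonloop hl0 hd ((hK.eqv _).trans ((hK.eqv _).symm h2) h1)

theorem Setup.rhs_iff (S : Setup K eta v G) {s0 : Bool} {σ : X → Bool} (hσ : Sig K eta s0 v G σ)
    {B : Finset X} (hB : B ⊆ G) (hL : (Mb K eta v G true).Nonempty)
    (hR : (Mb K eta v G false).Nonempty) :
    (K.Spl v (G \ B) ∧ K.AC s0 (v ∆ (G \ B)) B) ↔
    (B ⊆ Mb K eta v G true ∪ Mb K eta v G false ∧
      ((Mb K eta v G true ⊆ B ∧ Mb K eta v G false ⊆ B ∧
        ∃ s, ∀ c ∈ Mb K eta v G true ∪ Mb K eta v G false, σ c = s) ∨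
      (Mb K eta v G true ⊆ B ∧ Disjoint B (Mb K eta v G false) ∧
        ∃ s, ∀ c ∈ Mb K eta v G true, σ c = s) ∨
      (Mb K eta v G false ⊆ B ∧ Disjoint B (Mb K eta v G true) ∧
        ∃ s, ∀ c ∈ Mb K eta v G false, σ c = s))) := by
  have hK := S.core
  have hdis : Disjoint (Mb K eta v G true) (Mb K eta v G false) := by
    rw [Finset.disjoint_left]
    intro x hx hx'
    exact Mb_ne (b := true) hx hx' rfl
  constructor
  · rintro ⟨hs, hA⟩
    by_cases h1 : ∃ d ∈ Mb K eta v G false, d ∉ B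
    · obtain ⟨d, hd, hdB⟩ := h1
      obtain ⟨h2, h3⟩ := S.caseA hσ hB hs hA (b := true) hd hdB hL
      rw [h2]
      exact ⟨Finset.subset_union_left, Or.inr (Or.inl ⟨subset_rfl, hdis, h3⟩)⟩
    by_cases h1' : ∃ d ∈ Mb K eta v G true, d ∉ B
    · obtain ⟨d, hd, hdB⟩ := h1'
      obtain ⟨h2, h3⟩ := S.caseA hσ hB hs hA (b := false) hd hdB hR
      rw [h2]
      exact ⟨Finset.subset_union_right, Or.inr (Or.inr ⟨subset_rfl, hdis.symm, h3⟩)⟩
    push Not at h1 h1'
    have hT : ∀ y ∈ G \ B, ∀ x ∈ G, ¬ Int K v x y := by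
      intro y hy x hx hxy
      rw [Finset.mem_sdiff] at hy
      exact S.not_int_T hy.1 hx (fun h => hy.2 (h1' y h)) (fun h => hy.2 (h1 y h))
        (S.int_symm hx hy.1 hxy)
    have hloop : ∀ c ∈ B, K.Loop (v ∆ (G \ B)) c := by
      intro c hc
      exact S.loop_at Finset.sdiff_subset hs (hB hc) (by simp [hc])
        (fun y hy => hT y hy c (hB hc))
    have e := hK.eqv (v ∆ (G \ B))
    rcases hA with ⟨⟨g, hg⟩, a, a', haa, h⟩ | ⟨P, Q, hPQ, hd, hPn, hQn, h⟩
    · exact absurd (e.trans (e.trans (e.symm (h g hg).1) (hloop g hg)) (h g hg).2) haa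
    · have hPB : P ⊆ B := by rw [← hPQ]; exact Finset.subset_union_left
      have hQB : Q ⊆ B := by rw [← hPQ]; exact Finset.subset_union_right
      have hst := bun_struct S hσ (hPB.trans hB) (hQB.trans hB) hPn hQn (by
        intro x hx y hy
        have hxy : y ≠ x := by
          rintro rfl
          exact Finset.disjoint_left.mp hd hx hy
        have hi : Int K v y x := by
          apply S.int_of_at Finset.sdiff_subset hs (hB (hQB hy)) (by simp [hQB hy])
            (hB (hPB hx)) (by simp [hPB hx]) hxy (fun z hz => hT z hz y (hB (hQB hy)))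
            (fun z hz => hT z hz x (hB (hPB hx)))
          exact (h x hx y hy).2.2.1
        refine ⟨hi, ?_⟩
        rw [← S.crs_at Finset.sdiff_subset hs (hB (hQB hy)) (by simp [hQB hy])
            (hB (hPB hx)) (by simp [hPB hx]) (fun z hz => hT z hz y (hB (hQB hy)))
            (fun z hz => hT z hz x (hB (hPB hx))) hi]
        exact h x hx y hy)
      rw [hPQ] at hst
      obtain ⟨k1, -, -, s, k4⟩ := hst
      refine ⟨k1, Or.inl ⟨h1', h1, s, ?_⟩⟩
      intro c hc
      apply k4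
      rcases Finset.mem_union.mp hc with hc | hc
      · exact h1' c hc
      · exact h1 c hc
  · rintro ⟨hBs, ⟨h1, h2, s, h3⟩ | ⟨h1, h2, s, h3⟩ | ⟨h1, h2, s, h3⟩⟩
    · have hBe : B = Mb K eta v G true ∪ Mb K eta v G false :=
        hBs.antisymm (Finset.union_subset h1 h2)
      have hT : ∀ y ∈ G \ B, ∀ x ∈ G, ¬ Int K v x y := by
        intro y hy x hx hxy
        rw [Finset.mem_sdiff] at hy
        exact S.not_int_T hy.1 hx (fun h => hy.2 (h1 h)) (fun h => hy.2 (h2 h))
          (S.int_symm hx hy.1 hxy)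
      have hs : K.Spl v (G \ B) := by
        apply S.spl Finset.sdiff_subset
        intro x hx y hy
        exact hT y hy x (Finset.mem_sdiff.mp hx).1
      refine ⟨hs, Or.inr ⟨Mb K eta v G true, Mb K eta v G false, hBe.symm, hdis, hL, hR, ?_⟩⟩
      intro x hx y hy
      have hi : Int K v y x :=
        S.int_symm (Mb_sub _ hx) (Mb_sub _ hy) (S.int_all hx (by simpa using hy))
      rw [S.crs_at Finset.sdiff_subset hs (Mb_sub _ hy) (by simp [h2 hy]) (Mb_sub _ hx)
        (by simp [h1 hx]) (fun z hz => hT z hz y (Mb_sub _ hy))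
        (fun z hz => hT z hz x (Mb_sub _ hx)) hi, hσ.crs true x hx y hy,
        h3 x (Finset.mem_union_left _ hx), h3 y (Finset.mem_union_right _ hy)]
    · have hBe : B = Mb K eta v G true := by
        apply Finset.Subset.antisymm _ h1
        intro x hx
        rcases Finset.mem_union.mp (hBs hx) with h | h
        · exact h
        · exact absurd h (Finset.disjoint_left.mp h2 hx)
      obtain ⟨d, hd⟩ := hR
      rw [hBe]
      exact S.caseA' hσ (b := true) hd hL h3
    · have hBe : B = Mb K eta v G false := by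
        apply Finset.Subset.antisymm _ h1
        intro x hx
        rcases Finset.mem_union.mp (hBs hx) with h | h
        · exact absurd h (Finset.disjoint_left.mp h2 hx)
        · exact h
      obtain ⟨d, hd⟩ := hL
      rw [hBe]
      exact S.caseA' hσ (b := false) hd hR h3

end

open Classical in
theorem GIb (hK : K.IsSys eta) (s0 : Bool) (hN : K.NumP s0) (hC : K.CrsP s0) (v G : Finset X)
    (f : E → ℕ) (hG : Hom v G) (hf : ∀ x y, K.same (v ∆ G) x y → f x = f y)
    (hnum : K.num (v ∆ G) + 2 = K.num v + G.card) (hall : ∀ c ∈ G, K.Loop v c)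
    (B : Finset X) (hB : B = G.filter fun c => ¬ f (K.head c) < f (K.tail c)) :
    (((G.powerset.filter fun A => B ⊆ A ∧ K.AC s0 v A).card : ℕ) : ZMod 2) =
    if (∀ c ∈ B, f (K.tail c) = f (K.head c)) ∧ K.Spl v (G \ B) ∧ K.AC s0 (v ∆ (G \ B)) B
      then 1 else 0 := by
  have S : Setup K eta v G := ⟨hK, hG, hnum, hall⟩
  have hBG : B ⊆ G := by rw [hB]; exact Finset.filter_subset _ _
  -- an interleaved pair
  obtain ⟨c, hc, c', hc', hcc⟩ : ∃ c ∈ G, ∃ c' ∈ G, Int K v c c' := by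
    by_contra hcon
    push Not at hcon
    have := S.spl subset_rfl hcon
    unfold Cube.Spl at this
    omega
  have hne : (Mb K eta v G true).Nonempty ∧ (Mb K eta v G false).Nonempty := by
    have h1 := S.mem_Mb_of_int hc hc' hcc
    have h2 := S.mem_Mb_of_int hc' hc (S.int_symm hc hc' hcc)
    have h3 := S.int_eta hc hc' hcc
    cases h4 : eta c <;> cases h5 : eta c' <;> rw [h4] at h1 h3 <;> rw [h5] at h2 h3
    · exact absurd rfl h3
    · exact ⟨⟨_, h2⟩, ⟨_, h1⟩⟩
    · exact ⟨⟨_, h1⟩, ⟨_, h2⟩⟩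
    · exact absurd rfl h3
  obtain ⟨hL, hR⟩ := hne
  obtain ⟨l0, hl0⟩ := hL
  obtain ⟨r0, hr0⟩ := hR
  obtain ⟨σ, hσ⟩ := S.exists_sig hC hl0 hr0
  have hdis : Disjoint (Mb K eta v G true) (Mb K eta v G false) := by
    rw [Finset.disjoint_left]
    intro x hx hx'
    exact Mb_ne (b := true) hx hx' rfl
  have hBδ : ∀ c ∈ G, (c ∈ B ↔ 0 ≤ dl K f c) := by
    intro c hc
    rw [hB, Finset.mem_filter]
    unfold dl
    constructor
    · rintro ⟨-, h⟩; omega
    · intro h; exact ⟨hc, by omega⟩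
  have cL := S.cons hσ hf (b := true) hr0 ⟨l0, hl0⟩
  have cR := S.cons hσ hf (b := false) hl0 ⟨r0, hr0⟩
  have hcount := count G (Mb K eta v G true) (Mb K eta v G false) B (Mb_sub _) (Mb_sub _) hdis
    ⟨l0, hl0⟩ ⟨r0, hr0⟩ σ (dl K f) hBδ cL cR
  have hfil : (G.powerset.filter fun A => B ⊆ A ∧ K.AC s0 v A) =
      (G.powerset.filter fun A => B ⊆ A ∧ A ⊆ Mb K eta v G true ∪ Mb K eta v G false ∧
        (A ∩ Mb K eta v G true).Nonempty ∧ (A ∩ Mb K eta v G false).Nonempty ∧
        ∃ s, ∀ c ∈ A, σ c = s) := by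
    apply Finset.filter_congr
    intro A hA
    rw [S.ac_iff hσ (Finset.mem_powerset.mp hA)]
  rw [hfil, hcount]
  refine if_congr ?_ rfl rfl
  rw [← S.rhs_iff hσ hBG ⟨l0, hl0⟩ ⟨r0, hr0⟩]
  constructor
  · intro h
    refine ⟨?_, h⟩
    have hz : ∀ b, Mb K eta v G b ⊆ B → (∃ s, ∀ c ∈ Mb K eta v G b, σ c = s) →
        ∀ c ∈ Mb K eta v G b, f (K.tail c) = f (K.head c) := by
      rintro b h1 ⟨s, h2⟩ c hc
      have h3 : dl K f c = 0 := by
        apply cons_zero (Mb K eta v G b) σ (dl K f) s _ _ h2 c hc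
        · cases b
          · exact cR
          · exact cL
        · intro c hc
          exact (hBδ c (Mb_sub _ hc)).mp (h1 hc)
      unfold dl at h3
      omega
    obtain ⟨h1, h2⟩ := (S.rhs_iff hσ hBG ⟨l0, hl0⟩ ⟨r0, hr0⟩).mp h
    intro c hc
    rcases h2 with ⟨h2, h3, s, h4⟩ | ⟨h2, h3, h4⟩ | ⟨h2, h3, h4⟩
    · rcases Finset.mem_union.mp (h1 hc) with h5 | h5
      · exact hz true h2 ⟨s, fun c hc => h4 c (Finset.mem_union_left _ hc)⟩ c h5
      · exact hz false h3 ⟨s, fun c hc => h4 c (Finset.mem_union_right _ hc)⟩ c h5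
    · rcases Finset.mem_union.mp (h1 hc) with h5 | h5
      · exact hz true h2 h4 c h5
      · exact absurd h5 (Finset.disjoint_left.mp h3 hc)
    · rcases Finset.mem_union.mp (h1 hc) with h5 | h5
      · exact absurd h5 (Finset.disjoint_left.mp h3 hc)
      · exact hz false h2 h4 c h5
  · exact fun h => h.2

end GIb
end Pool.Agent.helper20.Sz
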